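import Mathlib

/-!
# Polyplexes, polydiagonals and hyperplane covers of multidimensional (0,1)-matrices

Definitions, weak duality, and the matrices of order `2` attached to weighted majority games.
A `d`-dimensional `(0,1)`-matrix of order `n` is given by the set `A` of the positions of its ones.
-/

namespace Pool.Agent.V11121.Polyplex

open Finset

/-- The hyperplane of all indices whose coordinate `i` equals `j`. -/
def hyp {d n : ℕ} (i : Fin d) (j : Fin n) : Finset (Fin d → Fin n) :=
  univ.filter (fun α => α i = j)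

/-- `K` is a polyplex in the matrix with set of ones `A`. -/
def IsPolyplex {d n : ℕ} (A : Set (Fin d → Fin n)) (K : (Fin d → Fin n) → ℝ) : Prop :=
  (∀ α, 0 ≤ K α) ∧ (∀ α, α ∉ A → K α = 0) ∧ ∀ i j, ∑ α ∈ hyp i j, K α ≤ 1

/-- The weight of `K`. -/
def weight {d n : ℕ} (K : (Fin d → Fin n) → ℝ) : ℝ := ∑ α, K α

/-- `K` is a polydiagonal: a polyplex whose sum over every hyperplane is `1`. -/
def IsPolydiagonal {d n : ℕ} (A : Set (Fin d → Fin n)) (K : (Fin d → Fin n) → ℝ) : Prop :=
  IsPolyplex A K ∧ ∀ i j, ∑ α ∈ hyp i j, K α = 1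

/-- The matrix with set of ones `A` is extremal: it has no polydiagonal, but replacing any single
zero by a one gives a matrix that has a polydiagonal. -/
def IsExtremal {d n : ℕ} (A : Set (Fin d → Fin n)) : Prop :=
  (¬ ∃ K, IsPolydiagonal A K) ∧ ∀ α, α ∉ A → ∃ K, IsPolydiagonal (insert α A) K

/-- `δ` is the deficiency of the matrix: `δ = n - w`, where `w` is the maximum weight of a
polyplex. -/
def IsDeficiency {d n : ℕ} (A : Set (Fin d → Fin n)) (δ : ℝ) : Prop :=
  ∃ w : ℝ, IsGreatest {x : ℝ | ∃ K, IsPolyplex A K ∧ x = weight K} w ∧ δ = n - w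

/-- `Λ` is a hyperplane cover of the matrix with set of ones `A`. -/
def IsCover {d n : ℕ} (A : Set (Fin d → Fin n)) (Λ : Fin d → Fin n → ℝ) : Prop :=
  (∀ i j, 0 ≤ Λ i j) ∧ ∀ α ∈ A, 1 ≤ ∑ i, Λ i (α i)

/-- `Λ` is an optimal hyperplane cover: its weight is minimum. -/
def IsOptimalCover {d n : ℕ} (A : Set (Fin d → Fin n)) (Λ : Fin d → Fin n → ℝ) : Prop :=
  IsCover A Λ ∧ ∀ Λ', IsCover A Λ' → ∑ i, ∑ j, Λ i j ≤ ∑ i, ∑ j, Λ' i j

/-- The deficiency is unique. -/
lemma IsDeficiency.unique {d n : ℕ} {A : Set (Fin d → Fin n)} {δ δ' : ℝ}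
    (h : IsDeficiency A δ) (h' : IsDeficiency A δ') : δ = δ' := by
  obtain ⟨w, hw, rfl⟩ := h
  obtain ⟨w', hw', rfl⟩ := h'
  rw [hw.unique hw']

/-- Weak duality. -/
lemma weak_duality {d n : ℕ} {A : Set (Fin d → Fin n)} {K : (Fin d → Fin n) → ℝ}
    {Λ : Fin d → Fin n → ℝ} (hK : IsPolyplex A K) (hΛ : IsCover A Λ) :
    weight K ≤ ∑ i, ∑ j, Λ i j := by
  have h1 : weight K ≤ ∑ α, K α * ∑ i, Λ i (α i) := by
    unfold weight
    refine Finset.sum_le_sum (fun α _ => ?_)
    by_cases hα : α ∈ A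
    · have := mul_le_mul_of_nonneg_left (hΛ.2 α hα) (hK.1 α)
      linarith
    · rw [hK.2.1 α hα]; simp
  have h2 : ∑ α, K α * ∑ i, Λ i (α i) = ∑ i, ∑ j, Λ i j * ∑ α ∈ hyp i j, K α := by
    simp_rw [Finset.mul_sum]
    rw [Finset.sum_comm]
    refine Finset.sum_congr rfl (fun i _ => ?_)
    rw [← Finset.sum_fiberwise (s := univ) (g := fun α : Fin d → Fin n => α i)]
    refine Finset.sum_congr rfl (fun j _ => ?_)
    unfold hyp
    refine Finset.sum_congr rfl (fun α hα => ?_)
    rw [(Finset.mem_filter.1 hα).2]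
    ring
  rw [h2] at h1
  refine h1.trans (Finset.sum_le_sum (fun i _ => Finset.sum_le_sum (fun j _ => ?_)))
  have := mul_le_mul_of_nonneg_left (hK.2.2 i j) (hΛ.1 i j)
  linarith

/-- A polydiagonal of a matrix of dimension at least `1` has weight `n`. -/
lemma weight_of_polydiagonal {d n : ℕ} {A : Set (Fin (d + 1) → Fin n)}
    {K : (Fin (d + 1) → Fin n) → ℝ} (hK : IsPolydiagonal A K) : weight K = n := by
  unfold weight
  rw [← Finset.sum_fiberwise (s := univ) (g := fun α : Fin (d + 1) → Fin n => α 0)]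
  have : ∀ j : Fin n, ∑ α ∈ univ.filter (fun α : Fin (d + 1) → Fin n => α 0 = j), K α = 1 :=
    fun j => hK.2 0 j
  rw [Finset.sum_congr rfl (fun j _ => this j)]
  simp

/-! ### Weighted majority games -/

/-- The weight of the coalition `{i | α i = 1}`. -/
def wt {d : ℕ} (w : Fin d → ℕ) (α : Fin d → Fin 2) : ℕ := ∑ i, w i * (α i).val

/-- The `d`-dimensional matrix of order `2` of a weighted game with quota `q`: its ones are the
coalitions of weight at least `q`. -/
def game {d : ℕ} (w : Fin d → ℕ) (q : ℕ) : Set (Fin d → Fin 2) := {α | q ≤ wt w α}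

/-- The complementary coalition. -/
def compl {d : ℕ} (α : Fin d → Fin 2) : Fin d → Fin 2 := fun i => 1 - α i

/-- The cover of a game given by the weights. -/
noncomputable def gameCover {d : ℕ} (w : Fin d → ℕ) (q : ℕ) : Fin d → Fin 2 → ℝ :=
  fun i j => (w i : ℝ) * (j.val : ℝ) / q

lemma fin2_cases (x : Fin 2) : x = 0 ∨ x = 1 := by
  fin_cases x <;> simp

lemma wt_compl {d : ℕ} (w : Fin d → ℕ) (α : Fin d → Fin 2) :
    wt w α + wt w (compl α) = ∑ i, w i := by
  unfold wt compl
  rw [← Finset.sum_add_distrib]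
  refine Finset.sum_congr rfl (fun i _ => ?_)
  rcases fin2_cases (α i) with h | h <;> rw [h] <;> simp

lemma gameCover_isCover {d : ℕ} (w : Fin d → ℕ) {q : ℕ} (hq : 0 < q) :
    IsCover (game w q) (gameCover w q) := by
  have hq' : (0 : ℝ) < q := by exact_mod_cast hq
  refine ⟨fun i j => by unfold gameCover; positivity, fun α hα => ?_⟩
  unfold gameCover
  rw [← Finset.sum_div, le_div_iff₀ hq', one_mul]
  have : q ≤ wt w α := hα
  unfold wt at this
  exact_mod_cast this

lemma gameCover_weight {d : ℕ} (w : Fin d → ℕ) (q : ℕ) :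
    ∑ i, ∑ j, gameCover w q i j = (∑ i, w i : ℕ) / q := by
  unfold gameCover
  push_cast
  rw [Finset.sum_div]
  refine Finset.sum_congr rfl (fun i _ => ?_)
  rw [Fin.sum_univ_two]
  simp

/-- The polyplex `∑ k, c k / N` at the positions `S k`. -/
noncomputable def cert {d m : ℕ} (S : Fin m → Fin d → Fin 2) (c : Fin m → ℕ) (N : ℕ) :
    (Fin d → Fin 2) → ℝ :=
  fun β => ∑ k, if β = S k then (c k : ℝ) / N else 0

lemma sum_cert {d m : ℕ} (S : Fin m → Fin d → Fin 2) (c : Fin m → ℕ) (N : ℕ)
    (X : Finset (Fin d → Fin 2)) :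
    ∑ β ∈ X, cert S c N β = ((∑ k, if S k ∈ X then c k else 0 : ℕ) : ℝ) / N := by
  unfold cert
  rw [Finset.sum_comm]
  push_cast
  rw [Finset.sum_div]
  refine Finset.sum_congr rfl (fun k _ => ?_)
  rw [Finset.sum_ite_eq']
  split_ifs <;> simp

lemma cert_isPolyplex {d m : ℕ} {w : Fin d → ℕ} {q N : ℕ} {S : Fin m → Fin d → Fin 2}
    {c : Fin m → ℕ} (hN : 0 < N) (hS : ∀ k, q ≤ wt w (S k))
    (hc : ∀ i j, (∑ k, if S k i = j then c k else 0) ≤ N) :
    IsPolyplex (game w q) (cert S c N) := by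
  have hN' : (0 : ℝ) < N := by exact_mod_cast hN
  refine ⟨fun α => ?_, fun α hα => ?_, fun i j => ?_⟩
  · unfold cert
    refine Finset.sum_nonneg (fun k _ => ?_)
    split_ifs
    · positivity
    · exact le_refl _
  · unfold cert
    refine Finset.sum_eq_zero (fun k _ => ?_)
    rw [if_neg]
    rintro rfl
    exact hα (hS k)
  · rw [sum_cert, div_le_one hN']
    have h := hc i j
    have h2 : (∑ k, if S k ∈ hyp i j then c k else 0) = ∑ k, if S k i = j then c k else 0 := by
      refine Finset.sum_congr rfl (fun k _ => ?_)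
      simp [hyp]
    rw [h2]
    exact_mod_cast h

lemma cert_weight {d m : ℕ} (S : Fin m → Fin d → Fin 2) (c : Fin m → ℕ) (N : ℕ) :
    weight (cert S c N) = ((∑ k, c k : ℕ) : ℝ) / N := by
  unfold weight
  rw [sum_cert]
  simp

/-- **Games and extremal matrices.** Let `w` be weights of `d + 1` voters with total `t`, and let
`q` be a quota such that `2 * q > t` and every coalition has weight at least `q` or at most
`t - q`. Then the matrix of order `2` of the game is extremal. -/
lemma game_isExtremal {d : ℕ} {w : Fin (d + 1) → ℕ} {q t : ℕ} (ht : ∑ i, w i = t)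
    (hq : t < 2 * q) (hgap : ∀ α, q ≤ wt w α ∨ wt w α + q ≤ t) : IsExtremal (game w q) := by
  have hq0 : 0 < q := by omega
  have hq' : (0 : ℝ) < q := by exact_mod_cast hq0
  constructor
  · rintro ⟨K, hK⟩
    have h1 := weak_duality hK.1 (gameCover_isCover w hq0)
    rw [weight_of_polydiagonal hK, gameCover_weight, ht, le_div_iff₀ hq'] at h1
    have : (2 * q : ℕ) ≤ t := by exact_mod_cast h1
    omega
  · intro α hα
    have h1 : ¬ q ≤ wt w α := hα
    have h2 : q ≤ wt w (compl α) := by
      have h3 := wt_compl w α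
      rcases hgap α with h | h
      · exact absurd h h1
      · omega
    have hne : α ≠ compl α := by
      intro h
      rw [← h] at h2
      exact h1 h2
    refine ⟨fun β => (if β = α then 1 else 0) + (if β = compl α then 1 else 0),
      ⟨fun β => by positivity, fun β hβ => ?_, fun i j => le_of_eq ?_⟩, fun i j => ?_⟩
    · have e1 : β ≠ α := fun h => hβ (by rw [h]; exact Set.mem_insert _ _)
      have e2 : β ≠ compl α := fun h => hβ (by rw [h]; exact Set.mem_insert_of_mem _ h2)
      simp [e1, e2]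
    all_goals
      rw [Finset.sum_add_distrib, Finset.sum_ite_eq', Finset.sum_ite_eq']
      unfold hyp compl
      simp only [Finset.mem_filter, Finset.mem_univ, true_and]
      rcases fin2_cases (α i) with h | h <;> rcases fin2_cases j with h' | h' <;> rw [h, h'] <;> simp

/-- The deficiency of a game with a certificate that its weights are optimal. -/
lemma game_deficiency {d m : ℕ} {w : Fin d → ℕ} {q t N : ℕ} (ht : ∑ i, w i = t) (hq : 0 < q)
    {S : Fin m → Fin d → Fin 2} {c : Fin m → ℕ} (hN : 0 < N) (hS : ∀ k, q ≤ wt w (S k))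
    (hc : ∀ i j, (∑ k, if S k i = j then c k else 0) ≤ N) (hw : (∑ k, c k) * q = t * N) :
    IsDeficiency (game w q) (2 - (t : ℝ) / q) ∧ IsOptimalCover (game w q) (gameCover w q) := by
  have hN' : (0 : ℝ) < N := by exact_mod_cast hN
  have hq' : (0 : ℝ) < q := by exact_mod_cast hq
  have hP := cert_isPolyplex (w := w) (q := q) hN hS hc
  have hW : weight (cert S c N) = (t : ℝ) / q := by
    rw [cert_weight, div_eq_div_iff hN'.ne' hq'.ne']
    exact_mod_cast hw
  refine ⟨⟨(t : ℝ) / q, ⟨⟨_, hP, hW.symm⟩, ?_⟩, by norm_num⟩, gameCover_isCover w hq, ?_⟩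
  · rintro x ⟨K, hK, rfl⟩
    have := weak_duality hK (gameCover_isCover w hq)
    rwa [gameCover_weight, ht] at this
  · intro Λ' hΛ'
    rw [gameCover_weight, ht, ← hW]
    exact weak_duality hP hΛ'

end Pool.Agent.V11121.Polyplex
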